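import Pool.Agent.H.MP_8a4945_al.A

namespace Pool.Agent.H.MP_7ddd63_al

open MP_8a4945_al

variable {S : Type}

abbrev Sp (S : Type) := List S × (List S × List S) × List S × Bool

def sr (s : Sp S) : List S := s.1 ++ (if s.2.2.2 then s.2.1.1 else s.2.1.2) ++ s.2.2.1

def tg (s : Sp S) : List S := s.1 ++ (if s.2.2.2 then s.2.1.2 else s.2.1.1) ++ s.2.2.1

def path (R : Set (Rl S)) (l : List (Sp S)) : Prop :=
  (∀ s ∈ l, s.2.1 ∈ R) ∧ ∀ (i : ℕ) (s t : Sp S), l[i]? = some s → l[i+1]? = some t → tg s = sr t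

def loop (R : Set (Rl S)) (w : List S) (l : List (Sp S)) : Prop :=
  path R l ∧ (∀ s ∈ l.head?, sr s = w) ∧ (∀ s ∈ l.getLast?, tg s = w)

def shape (a b : List (Sp S)) : Prop :=
  (∃ (p q : List (Sp S)) (x u v y : List S) (c : Bool), a = p ++ q ∧ b = p ++ [(x, (u, v), y, c), (x, (u, v), y, !c)] ++ q) ∨
  (∃ (p q : List (Sp S)) (x u₁ v₁ y u₂ v₂ z : List S),
    a = p ++ [(x, (u₁, v₁), y ++ u₂ ++ z, true), (x ++ v₁ ++ y, (u₂, v₂), z, true)] ++ q ∧
    b = p ++ [(x ++ u₁ ++ y, (u₂, v₂), z, true), (x, (u₁, v₁), y ++ v₂ ++ z, true)] ++ q)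

def move (R : Set (Rl S)) (a b : List (Sp S)) : Prop := path R a ∧ path R b ∧ shape a b

def Vf (R : Set (Rl S)) : List S → List (Sp S) → Prop
  | _, [] => True
  | u, s :: l => s.2.1 ∈ R ∧ sr s = u ∧ Vf R (tg s) l

def en : List S → List (Sp S) → List S
  | u, [] => u
  | _, s :: l => en (tg s) l

def iv (s : Sp S) : Sp S := (s.1, s.2.1, s.2.2.1, !s.2.2.2)

def rv (l : List (Sp S)) : List (Sp S) := (l.map iv).reverse

variable {R : Set (Rl S)} {w : List S}

theorem sr_eq (a : List S) (r : Rl S) (b : List S) (d : Bool) : sr (a, r, b, d) = a ++ src r d ++ b := by cases d <;> rfl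

theorem tg_eq (a : List S) (r : Rl S) (b : List S) (d : Bool) : tg (a, r, b, d) = a ++ src r (!d) ++ b := by cases d <;> rfl

@[simp] theorem sr_iv (s : Sp S) : sr (iv s) = tg s := by obtain ⟨a, r, b, _ | _⟩ := s <;> rfl

@[simp] theorem tg_iv (s : Sp S) : tg (iv s) = sr s := by obtain ⟨a, r, b, _ | _⟩ := s <;> rfl

theorem rv_rv (l : List (Sp S)) : rv (rv l) = l := by simp [rv, iv, Function.comp_def]

theorem en_app (u : List S) (a b : List (Sp S)) : en u (a ++ b) = en (en u a) b := by induction a generalizing u <;> simp [en, *]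

theorem vf_app (u : List S) (a b : List (Sp S)) : Vf R u (a ++ b) ↔ Vf R u a ∧ Vf R (en u a) b := by
  induction a generalizing u <;> simp [en, Vf, and_assoc, *]

theorem vf_rv {u : List S} {l : List (Sp S)} (h : Vf R u l) : Vf R (en u l) (rv l) ∧ en (en u l) (rv l) = u := by
  induction l generalizing u with
  | nil => exact ⟨trivial, rfl⟩
  | cons s l ih =>
    have := ih h.2.2
    simp only [rv, List.map_cons, List.reverse_cons, vf_app, en_app, en, Vf, sr_iv, tg_iv] at this ⊢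
    exact ⟨⟨this.1, h.1, this.2.symm, trivial⟩, h.2.1⟩

theorem vf_iff (u : List S) (l : List (Sp S)) : Vf R u l ↔ path R l ∧ ∀ s ∈ l.head?, sr s = u := by
  induction l generalizing u with
  | nil => simp [Vf, path]
  | cons s l ih =>
    simp only [Vf, ih, path, List.mem_cons, forall_eq_or_imp, Option.mem_def,
      List.getElem?_cons_succ, List.head?_eq_getElem?]
    refine ⟨fun ⟨a, b, ⟨c, d⟩, e⟩ => ⟨⟨⟨a, c⟩, fun i x y j k => ?_⟩, by simpa using b⟩,
      fun ⟨⟨⟨a, c⟩, d⟩, b⟩ => ⟨a, by simpa using b, ⟨c, fun i => d (i + 1)⟩, fun t j => (d 0 s t rfl j).symm⟩⟩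
    cases i with
    | zero => exact (Option.some.inj j) ▸ (e y k).symm
    | succ i => exact d i x y j k

theorem en_eq (u : List S) (l : List (Sp S)) : en u l = u ↔ ∀ s ∈ l.getLast?, tg s = u := by
  induction l using List.reverseRecOn <;> simp [en, en_app]

theorem loop_iff (l : List (Sp S)) : loop R w l ↔ Vf R w l ∧ en w l = w := by rw [vf_iff, en_eq, loop, and_assoc]

theorem shape.en {a b : List (Sp S)} (h : shape a b) (u : List S) (k : Vf R u b) : en u a = en u b := by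
  rcases h with ⟨p, q, x, u, v, y, c, rfl, rfl⟩ | ⟨p, q, x, u₁, v₁, y, u₂, v₂, z, rfl, rfl⟩
  · simp only [vf_app, Vf, en_app, MP_7ddd63_al.en] at k ⊢
    rw [← k.1.2.2.1]
    cases c <;> rfl
  · simp [en_app, MP_7ddd63_al.en, tg]

theorem shape.ctx {a b : List (Sp S)} (h : shape a b) (m n : List (Sp S)) : shape (m ++ a ++ n) (m ++ b ++ n) := by
  rcases h with ⟨p, q, x, u, v, y, c, rfl, rfl⟩ | ⟨p, q, x, u₁, v₁, y, u₂, v₂, z, rfl, rfl⟩
  exacts [.inl ⟨m ++ p, q ++ n, x, u, v, y, c, by simp, by simp⟩, .inr ⟨m ++ p, q ++ n, x, u₁, v₁, y, u₂, v₂, z, by simp, by simp⟩]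

def TT (R : Set (Rl S)) (w : List S) : Type := Quot fun a b : {l // Vf R w l} => shape a.1 b.1

open Classical in
noncomputable def cls (R : Set (Rl S)) (w : List S) (l : List (Sp S)) : TT R w :=
  Quot.mk _ (if h : Vf R w l then ⟨l, h⟩ else ⟨[], trivial⟩)

theorem cls_eq {l : List (Sp S)} (h : Vf R w l) : cls R w l = Quot.mk _ ⟨l, h⟩ := by rw [cls, dif_pos h]

theorem cls_ne {l : List (Sp S)} (h : ¬ Vf R w l) : cls R w l = cls R w [] := by rw [cls, dif_neg h, cls_eq]

theorem cls_mv {a b : List (Sp S)} (i : Vf R w a) (j : Vf R w b) (h : shape a b) : cls R w a = cls R w b := by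
  rw [cls_eq i, cls_eq j]; exact Quot.sound h

theorem cls_sur (t : TT R w) : ∃ l, Vf R w l ∧ t = cls R w l := Quot.inductionOn t fun l => ⟨l.1, l.2, (cls_eq l.2).symm⟩

theorem cls_move {a b : List (Sp S)} (h : move R a b) : cls R w a = cls R w b := by
  have e : a = [] ∨ a.head?.map sr = b.head?.map sr := by
    have := h.2.1.2
    rcases h.2.2 with ⟨p, q, x, u, v, y, c, rfl, rfl⟩ | ⟨p, q, x, u₁, v₁, y, u₂, v₂, z, rfl, rfl⟩
    · rcases p with _ | ⟨s, p⟩
      · rcases q with _ | ⟨s, q⟩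
        · simp
        · exact .inr (congrArg some ((this 1 _ s rfl rfl).symm.trans (by cases c <;> rfl)))
      · simp
    · cases p <;> simp [sr]
  by_cases i : Vf R w b
  · refine cls_mv ?_ i h.2.2
    rcases e with rfl | e
    · trivial
    · rw [vf_iff] at i ⊢
      refine ⟨h.1, fun s j => ?_⟩
      obtain ⟨t, k, e⟩ := Option.map_eq_some_iff.1 (e.symm.trans (congrArg _ j))
      exact e ▸ i.2 t k
  · rw [cls_ne i]
    rcases e with rfl | e
    · rfl
    · refine cls_ne fun j => i ?_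
      rw [vf_iff] at j ⊢
      refine ⟨h.2.1, fun s k => ?_⟩
      obtain ⟨t, k, e⟩ := Option.map_eq_some_iff.1 (e.trans (congrArg _ k))
      exact e ▸ j.2 t k

theorem cls_iff {a b : List (Sp S)} (i : Vf R w a) (j : Vf R w b) : cls R w a = cls R w b ↔ Quot.mk (move R) a = Quot.mk _ b := by
  refine ⟨fun h => ?_, fun h => congrArg (Quot.lift (cls R w) fun _ _ => cls_move) h⟩
  rw [cls_eq i, cls_eq j] at h
  exact congrArg (Quot.lift (fun l : {l // Vf R w l} => Quot.mk (move R) l.1) fun a b h =>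
    Quot.sound ⟨((vf_iff ..).1 a.2).1, ((vf_iff ..).1 b.2).1, h⟩) h

def wd : TT R w → List S := Quot.lift (fun l => en w l.1) fun _ b h => h.en w b.2

theorem wd_cls {l : List (Sp S)} (h : Vf R w l) : wd (cls R w l) = en w l := by rw [cls_eq h]; rfl

noncomputable def ap (m : List (Sp S)) : TT R w → TT R w := Quot.lift (fun l => cls R w (l.1 ++ m)) fun a b h => by
  have e : Vf R w (a.1 ++ m) ↔ Vf R w (b.1 ++ m) := by simp [vf_app, a.2, b.2, h.en w b.2]
  by_cases i : Vf R w (a.1 ++ m)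
  · exact cls_mv i (e.1 i) (h.ctx [] m)
  · exact (cls_ne i).trans (cls_ne (mt e.2 i)).symm

theorem ap_cls {l : List (Sp S)} (h : Vf R w l) (m : List (Sp S)) : ap m (cls R w l) = cls R w (l ++ m) := by rw [cls_eq h]; rfl

noncomputable def pre {m : List (Sp S)} (h : Vf R w m ∧ en w m = w) : TT R w → TT R w :=
  Quot.lift (fun l => cls R w (m ++ l.1)) fun a b k => cls_mv (by simp [vf_app, h, a.2]) (by simp [vf_app, h, b.2])
    (by simpa using k.ctx m [])

theorem pre_cls {m l : List (Sp S)} (h : Vf R w m ∧ en w m = w) (k : Vf R w l) : pre h (cls R w l) = cls R w (m ++ l) := by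
  rw [cls_eq k]; rfl

theorem cancel {p l q : List (Sp S)} (h : Vf R w (p ++ l)) (k : Vf R w (p ++ q)) : cls R w (p ++ l ++ rv l ++ q) = cls R w (p ++ q) := by
  induction l generalizing p q with
  | nil => simp [rv]
  | cons s l ih =>
    simp only [vf_app, Vf] at h k
    have i : Vf R w (p ++ [s] ++ iv s :: q) := by
      simp only [vf_app, Vf, en, en_app, sr_iv, tg_iv]
      exact ⟨⟨h.1, h.2.1, h.2.2.1, trivial⟩, h.2.1, trivial, h.2.2.1 ▸ k.2⟩
    have := ih (p := p ++ [s]) (q := iv s :: q) (by simp [vf_app, Vf, h]) i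
    simp only [rv, List.map_cons, List.reverse_cons, List.append_assoc, List.cons_append, List.nil_append] at this i ⊢
    exact this.trans (cls_mv ((vf_app ..).2 k) i (.inl ⟨p, q, s.1, s.2.1.1, s.2.1.2, s.2.2.1, s.2.2.2, rfl, by simp [iv]⟩)).symm

theorem lp_rv {m : List (Sp S)} (h : Vf R w m ∧ en w m = w) : Vf R w (rv m) ∧ en w (rv m) = w := by simpa [h.2] using vf_rv h.1

theorem lp_app {m n : List (Sp S)} (h : Vf R w m ∧ en w m = w) (k : Vf R w n ∧ en w n = w) :
    Vf R w (m ++ n) ∧ en w (m ++ n) = w := by simp [vf_app, en_app, h, k]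

theorem pre_rv {m : List (Sp S)} (h : Vf R w m ∧ en w m = w) (t : TT R w) : pre h (pre (lp_rv h) t) = t := by
  obtain ⟨l, i, rfl⟩ := cls_sur t
  rw [pre_cls _ i, pre_cls _ (by simp [vf_app, lp_rv h, i]), ← List.append_assoc]
  exact cancel (p := []) h.1 i

noncomputable def prm {m : List (Sp S)} (h : Vf R w m ∧ en w m = w) : Equiv.Perm (TT R w) where
  toFun := pre h
  invFun := pre (lp_rv h)
  left_inv t := by simpa only [rv_rv] using pre_rv (lp_rv h) t
  right_inv := pre_rv h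

theorem prm_app {m : List (Sp S)} (h : Vf R w m ∧ en w m = w) (t : TT R w) : prm h t = pre h t := rfl

theorem prm_mul {m n : List (Sp S)} (h : Vf R w m ∧ en w m = w) (k : Vf R w n ∧ en w n = w) : prm (lp_app h k) = prm h * prm k :=
  Equiv.ext fun t => by
    obtain ⟨l, i, rfl⟩ := cls_sur t
    rw [Equiv.Perm.mul_apply, prm_app, prm_app, prm_app, pre_cls _ i, pre_cls _ i, pre_cls _ (by simp [vf_app, k, i]), List.append_assoc]

theorem prm_iff {m n : List (Sp S)} (h : Vf R w m ∧ en w m = w) (k : Vf R w n ∧ en w n = w) :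
    prm h = prm k ↔ cls R w m = cls R w n := by
  refine ⟨fun e => ?_, fun e => Equiv.ext fun t => ?_⟩
  · have : pre h (cls R w []) = pre k (cls R w []) := congrArg (· (cls R w [])) e
    simpa [pre_cls _ (show Vf R w [] from trivial)] using this
  · obtain ⟨l, i, rfl⟩ := cls_sur t
    rw [prm_app, prm_app, pre_cls _ i, pre_cls _ i, ← ap_cls h.1, ← ap_cls k.1, e]

def GG (R : Set (Rl S)) (w : List S) : Subgroup (Equiv.Perm (TT R w)) where
  carrier := {π | ∃ m, ∃ h : Vf R w m ∧ en w m = w, π = prm h}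
  one_mem' := ⟨[], ⟨trivial, rfl⟩, Equiv.ext fun t => by
    obtain ⟨l, i, rfl⟩ := cls_sur t
    exact (pre_cls (m := []) ⟨trivial, rfl⟩ i).symm⟩
  mul_mem' := by rintro _ _ ⟨m, h, rfl⟩ ⟨n, k, rfl⟩; exact ⟨_, _, (prm_mul h k).symm⟩
  inv_mem' := by rintro _ ⟨m, h, rfl⟩; exact ⟨_, lp_rv h, Equiv.ext fun _ => rfl⟩

theorem act_cls (g : GG R w) : ∃ m, (Vf R w m ∧ en w m = w) ∧ ∀ l, Vf R w l → g • cls R w l = cls R w (m ++ l) := by
  obtain ⟨_, m, h, rfl⟩ := g
  exact ⟨m, h, fun l => pre_cls h⟩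

def St (t t' : TT R w) (a : List S) (r : Rl S) (d : Bool) (b : List S) : Prop :=
  r ∈ R ∧ wd t = a ++ src r d ++ b ∧ t' = ap [(a, r, b, d)] t

theorem St.ex {t t' : TT R w} {a r d b} (h : St t t' a r d b) {l} (i : Vf R w l) (e : t = cls R w l) :
    Vf R w (l ++ [(a, r, b, d)]) ∧ t' = cls R w (l ++ [(a, r, b, d)]) := by
  subst e
  exact ⟨by simp [vf_app, Vf, i, h.1, sr_eq, ← wd_cls i, h.2.1], h.2.2.trans (ap_cls i _)⟩

theorem St.sym {t t' : TT R w} {a r d b} (h : St t t' a r d b) : St t' t a r (!d) b := by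
  obtain ⟨l, i, rfl⟩ := cls_sur t
  obtain ⟨j, rfl⟩ := h.ex i rfl
  refine ⟨h.1, by simp [wd_cls j, en_app, en, tg_eq], ?_⟩
  rw [ap_cls j]
  simpa [rv, iv] using (cancel (q := []) j (by simpa using i)).symm

noncomputable def sys (hR : ∀ r ∈ R, r.1 ≠ [] ∧ r.2 ≠ []) (w : List S) : Sys R (GG R w) (TT R w) where
  word := wd
  St := St
  ne r h d := by cases d; exacts [(hR r h).2, (hR r h).1]
  sym := St.sym
  fn h k := h.2.2.trans k.2.2.symm
  ex h k := ⟨_, h, k, rfl⟩
  wd h := ⟨h.1, h.2.1⟩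
  sq0 {t t1 t2 t3 t4 a r m r' b} h1 h2 h3 h4 := by
    obtain ⟨l, i, rfl⟩ := cls_sur t
    obtain ⟨j1, e1⟩ := h1.ex i rfl
    obtain ⟨j2, rfl⟩ := h2.ex j1 e1
    obtain ⟨j3, e3⟩ := h3.ex i rfl
    obtain ⟨j4, rfl⟩ := h4.ex j3 e3
    exact cls_mv j2 j4 (.inr ⟨l, [], a, r.1, r.2, m, r'.1, r'.2, b, by simp, by simp⟩)
  con o P h k t := by
    have : ∀ l, Vf R w l → (P (cls R w l) ↔ P (cls R w [])) := fun l => by
      induction l using List.reverseRecOn with
      | nil => simp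
      | append_singleton l s ih =>
        intro i
        obtain ⟨a, r, b, d⟩ := s
        rw [vf_app] at i
        have s : St (cls R w l) _ a r d b := ⟨i.2.1, by rw [wd_cls i.1, ← i.2.2.1, sr_eq], (ap_cls i.1 _).symm⟩
        exact Iff.trans ⟨k _ _ _ _ _ _ s.sym, k _ _ _ _ _ _ s⟩ (ih i.1)
    obtain ⟨l, i, rfl⟩ := cls_sur t
    obtain ⟨m, j, rfl⟩ := cls_sur o
    exact (this l i).2 ((this m j).1 h)
  sact g {t t' a r d b} h := by
    obtain ⟨m, j, e⟩ := act_cls g
    obtain ⟨l, i, rfl⟩ := cls_sur t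
    obtain ⟨k, rfl⟩ := h.ex i rfl
    have i' : Vf R w (m ++ l) := by simp [vf_app, j, i]
    exact ⟨h.1, by rw [e l i, wd_cls i', en_app, j.2, ← wd_cls i, h.2.1], by rw [e _ k, e l i, ap_cls i', List.append_assoc]⟩
  wact g t := by
    obtain ⟨m, j, e⟩ := act_cls g
    obtain ⟨l, i, rfl⟩ := cls_sur t
    rw [e l i, wd_cls (by simp [vf_app, j, i]), en_app, j.2, wd_cls i]
  free g t h := by
    obtain ⟨m, j, e⟩ := act_cls g
    obtain ⟨l, i, rfl⟩ := cls_sur t
    refine Subtype.ext (Equiv.ext fun u => ?_)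
    obtain ⟨n, k, rfl⟩ := cls_sur u
    have i' : Vf R w (m ++ l) := by simp [vf_app, j, i]
    have := congrArg (ap (rv l ++ n)) h
    rw [e l i, ap_cls i, ap_cls i', ← List.append_assoc, ← List.append_assoc, cancel i' (by simp [vf_app, j, k])] at this
    exact (e n k).trans (this.trans (cancel (p := []) i k))
  tr t t' h := by
    obtain ⟨l, i, rfl⟩ := cls_sur t
    obtain ⟨m, j, rfl⟩ := cls_sur t'
    rw [wd_cls i, wd_cls j] at h
    have k : Vf R w (m ++ rv l) ∧ en w (m ++ rv l) = w := by simp [vf_app, en_app, j, ← h, vf_rv i]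
    refine ⟨⟨prm k, _, k, rfl⟩, (pre_cls k i).trans ?_⟩
    simpa [rv_rv] using cancel (q := []) k.1 (by simpa using j)
  lift H _ σ h := by
    let f : List (Sp S) → H := fun l => (l.map fun s => cond s.2.2.2 (σ (s.1, s.2.1, s.2.2.1))⁻¹ (σ (s.1, s.2.1, s.2.2.1))).prod
    refine ⟨Quot.lift (fun l => (f l.1)⁻¹) fun a b k => congrArg _ ?_, fun t t' a r b k => ?_⟩
    · obtain ⟨a, i⟩ := a
      obtain ⟨b, j⟩ := b
      rcases k with ⟨p, q, x, u, v, y, c, rfl, rfl⟩ | ⟨p, q, x, u₁, v₁, y, u₂, v₂, z, rfl, rfl⟩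
      · cases c <;> simp [f]
      · simp only [vf_app, Vf] at i
        have := congrArg (·⁻¹) (h x y z _ i.1.2.1 _ i.1.2.2.2.1)
        simp only [mul_inv_rev] at this
        simp only [f, List.map_append, List.prod_append, List.map_cons, List.prod_cons, cond_true, List.map_nil, List.prod_nil, mul_one, this]
    · obtain ⟨l, i, rfl⟩ := cls_sur t
      obtain ⟨j, rfl⟩ := k.ex i rfl
      rw [cls_eq i, cls_eq j]
      simp [f]

theorem link : ∃ el : List (Sp S) → GG R w, (∀ p q, loop R w p → loop R w q → el (p ++ q) = el p * el q) ∧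
    (∀ p q, loop R w p → loop R w q → (el p = el q ↔ Quot.mk (move R) p = Quot.mk _ q)) ∧ ∀ g, ∃ p, loop R w p ∧ el p = g := by
  classical
  simp only [loop_iff]
  refine ⟨fun m => if h : Vf R w m ∧ en w m = w then ⟨prm h, m, h, rfl⟩ else 1, fun p q i j => ?_, fun p q i j => ?_,
    fun ⟨_, m, h, e⟩ => ⟨m, h, by simp only [dif_pos h, e]⟩⟩
  · simp only [dif_pos i, dif_pos j, dif_pos (lp_app i j)]
    exact Subtype.ext (prm_mul i j)
  · simp only [dif_pos i, dif_pos j, Subtype.mk.injEq, prm_iff, cls_iff i.1 j.1]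

end Pool.Agent.H.MP_7ddd63_al
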