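import Mathlib

namespace Pool.Agent.H.MP_7ddd63_al

variable {V : Type} (Γ : SimpleGraph V)

abbrev RA := PresentedGroup {r : FreeGroup V | ∃ s t, Γ.Adj s t ∧
  r = FreeGroup.of s * FreeGroup.of t * (FreeGroup.of s)⁻¹ * (FreeGroup.of t)⁻¹}

def ev (s : List (V × ℤ)) : RA Γ := (s.map fun e => (PresentedGroup.of e.1 : RA Γ) ^ e.2).prod

theorem ev_sur (g : RA Γ) : ∃ s, ev Γ s = g := by
  refine Subgroup.closure_induction (p := fun g _ => ∃ s, ev Γ s = g) ?_ ⟨[], rfl⟩ ?_ ?_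
    (PresentedGroup.closure_range_of _ ▸ Subgroup.mem_top g)
  · rintro _ ⟨v, rfl⟩; exact ⟨[(v, 1)], by simp [ev]⟩
  · rintro _ _ - - ⟨s, rfl⟩ ⟨t, rfl⟩; exact ⟨s ++ t, by simp [ev]⟩
  · rintro _ - ⟨s, rfl⟩
    exact ⟨(s.map fun e => (e.1, -e.2)).reverse, by simp [ev, List.prod_inv_reverse, Function.comp_def]⟩

theorem of_comm {u v : V} (h : Γ.Adj u v) : Commute (PresentedGroup.of u : RA Γ) (PresentedGroup.of v) := by
  have := PresentedGroup.one_of_mem (rels := {r : FreeGroup V | ∃ s t, Γ.Adj s t ∧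
    r = FreeGroup.of s * FreeGroup.of t * (FreeGroup.of s)⁻¹ * (FreeGroup.of t)⁻¹}) ⟨u, v, h, rfl⟩
  exact commutatorElement_eq_one_iff_commute.1 this

def sw (a b : List V) : Prop := ∃ x y u v, Γ.Adj u v ∧ a = x ++ u :: v :: y ∧ b = x ++ v :: u :: y

theorem sw_ev {a b : List V} (h : Relation.ReflTransGen (sw Γ) a b) {s : List (V × ℤ)} (e : s.map Prod.fst = a) :
    ∃ s' : List (V × ℤ), s'.map Prod.fst = b ∧ ev Γ s' = ev Γ s := by
  induction h with
  | refl => exact ⟨s, e, rfl⟩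
  | tail _ k ih =>
    obtain ⟨x, y, u, v, k, rfl, rfl⟩ := k
    obtain ⟨s, e, f⟩ := ih
    simp only [List.map_eq_append_iff, List.map_eq_cons_iff] at e
    obtain ⟨s1, _, rfl, rfl, p, _, rfl, rfl, q, s2, rfl, rfl, rfl⟩ := e
    exact ⟨s1 ++ q :: p :: s2, by simp, by
      rw [← f]
      simp only [ev, List.map_append, List.map_cons, List.prod_append, List.prod_cons, ((of_comm Γ k).zpow_zpow p.2 q.2).left_comm]⟩

theorem sw_len {a b : List V} (h : Relation.ReflTransGen (sw Γ) a b) : b.length = a.length := by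
  induction h with
  | refl => rfl
  | tail _ k ih =>
    obtain ⟨x, y, u, v, k, rfl, rfl⟩ := k
    simpa using ih

variable (K : Type) [CommRing K] (n : ℕ)

def U : Submodule K (List V → K) where
  carrier := {φ | (∀ a b, sw Γ a b → φ a = φ b) ∧ (∀ x v y, φ (x ++ v :: v :: y) = 0) ∧ ∀ a, n < a.length → φ a = 0}
  zero_mem' := by simp
  add_mem' a b := ⟨fun x y h => by simp [a.1 x y h, b.1 x y h], fun x v y => by simp [a.2.1, b.2.1], fun x h => by simp [a.2.2 x h, b.2.2 x h]⟩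
  smul_mem' c _ a := ⟨fun x y h => by simp [a.1 x y h], fun x v y => by simp [a.2.1], fun x h => by simp [a.2.2 x h]⟩

def Tv (v : V) : Module.End K (U Γ K n) where
  toFun φ := ⟨fun a => φ.1 (a ++ [v]), fun _ _ ⟨x, y, p, q, h, i, j⟩ => φ.2.1 _ _ ⟨x, y ++ [v], p, q, h, by simp [i], by simp [j]⟩,
    fun x u y => by simpa using φ.2.2.1 x u (y ++ [v]), fun a h => φ.2.2.2 _ (by simp; omega)⟩
  map_add' _ _ := rfl
  map_smul' _ _ := rfl

theorem Tv_sq (v : V) : Tv Γ K n v * Tv Γ K n v = 0 := LinearMap.ext fun φ => Subtype.ext (funext fun a => by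
  simpa [Tv] using φ.2.2.1 a v [])

theorem Tv_mul (v : V) (a b : K) : (1 + a • Tv Γ K n v) * (1 + b • Tv Γ K n v) = 1 + (a + b) • Tv Γ K n v := by
  simp [add_mul, mul_add, Tv_sq, add_smul, add_assoc]

def un (v : V) : (Module.End K (U Γ K n))ˣ :=
  ⟨1 + (1 : K) • Tv Γ K n v, 1 + (-1 : K) • Tv Γ K n v, by rw [Tv_mul]; simp, by rw [Tv_mul]; simp⟩

theorem un_zpow (v : V) (e : ℤ) : (un Γ K n v ^ e).1 = 1 + (e : K) • Tv Γ K n v := by
  induction e with
  | zero => simp
  | succ e ih => rw [zpow_add_one, Units.val_mul, ih, Int.cast_add, Int.cast_one, ← Tv_mul]; rfl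
  | pred e ih => rw [zpow_sub_one, Units.val_mul, ih, sub_eq_add_neg, Int.cast_add, Int.cast_neg 1, Int.cast_one, ← Tv_mul]; rfl

def rep : RA Γ →* (Module.End K (U Γ K n))ˣ := PresentedGroup.toGroup (f := un Γ K n) (by
  rintro _ ⟨s, t, h, rfl⟩
  have : Commute (Tv Γ K n s) (Tv Γ K n t) := LinearMap.ext fun φ => Subtype.ext (funext fun a =>
    φ.2.1 _ _ ⟨a, [], s, t, h, by simp, by simp⟩)
  have : Commute (un Γ K n s) (un Γ K n t) := Units.ext
    (((Commute.one_left _).add_left ((Commute.one_right _).add_right ((this.smul_left _).smul_right _))).eq)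
  simp [this.eq])

theorem rep_cons (e : V × ℤ) (s : List (V × ℤ)) (φ : U Γ K n) (a : List V) :
    ((rep Γ K n (ev Γ (e :: s))).1 φ).1 a = ((rep Γ K n (ev Γ s)).1 φ).1 a + e.2 * ((rep Γ K n (ev Γ s)).1 φ).1 (a ++ [e.1]) := by
  simp [ev, rep, un_zpow, Tv]

theorem rep_low (s : List (V × ℤ)) (φ : U Γ K n) (k : ℕ) (h : ∀ a, k < a.length → φ.1 a = 0) (a : List V) (l : k ≤ a.length) :
    ((rep Γ K n (ev Γ s)).1 φ).1 a = φ.1 a := by
  induction s generalizing a with
  | nil => simp [ev]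
  | cons e s ih => rw [rep_cons, ih a l, ih _ (by simp; omega), h (_ ++ _) (by simp; omega)]; simp

theorem rep_top (s : List (V × ℤ)) (φ : U Γ K n) (h : ∀ a, a.length < n → φ.1 a = 0) (a : List V) (l : a.length + s.length ≤ n) :
    ((rep Γ K n (ev Γ s)).1 φ).1 a = (s.map fun e => (e.2 : K)).prod * φ.1 (a ++ s.map Prod.fst) := by
  induction s generalizing a with
  | nil => simp [ev]
  | cons e s ih =>
    simp only [List.length_cons] at l
    rw [rep_cons, ih a (by omega), ih _ (by simp; omega), h (a ++ _) (by simp; omega)]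
    simp [mul_assoc]

theorem rep_pow (p : ℕ) [Fact p.Prime] (t : RA Γ) : ∃ k, 0 < k ∧ rep Γ (ZMod p) n t ^ k = 1 := by
  obtain ⟨s, rfl⟩ := ev_sur Γ t
  obtain ⟨E, hE⟩ : ∃ E, (rep Γ (ZMod p) n (ev Γ s)).1 = 1 + E := ⟨(rep Γ (ZMod p) n (ev Γ s)).1 + (-1 : ZMod p) • 1, by
    rw [add_left_comm, ← one_smul (ZMod p) (1 : Module.End _ _), smul_smul, ← add_smul]; simp⟩
  have h : ∀ k (φ : U Γ (ZMod p) n), (∀ a, k ≤ a.length → φ.1 a = 0) → (E ^ k) φ = 0 := fun k => by
    induction k with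
    | zero => exact fun φ h => Subtype.ext (funext fun a => h a (by simp))
    | succ k ih =>
      intro φ h
      rw [pow_succ]
      exact ih _ fun a l => by simpa [hE] using rep_low Γ _ n s φ k h a l
  have h1 : E ^ (n + 1) = 0 := LinearMap.ext fun φ => h _ φ φ.2.2.2
  have q := (Fact.out : p.Prime)
  obtain ⟨r, e⟩ := (Commute.one_left E).exists_add_pow_prime_pow_eq q (n + 1)
  refine ⟨_, pow_pos q.pos (n + 1), Units.ext ?_⟩
  rw [Units.val_pow_eq_pow_val, hE, e, ← map_natCast (algebraMap (ZMod p) _), ZMod.natCast_self,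
    pow_eq_zero_of_le (Nat.lt_pow_self q.one_lt).le h1]
  simp

theorem rep_ne {g : RA Γ} (h : g ≠ 1) : ∃ p n, p.Prime ∧ rep Γ (ZMod p) n g ≠ 1 := by
  classical
  obtain ⟨s, rfl, m⟩ : ∃ s, ev Γ s = g ∧ ∀ s', ev Γ s' = g → s.length ≤ s'.length :=
    ⟨_, Function.argminOn_mem List.length {s | ev Γ s = g} (ev_sur Γ g), fun _ i => Function.argminOn_le List.length _ i⟩
  have z : (s.map Prod.snd).prod ≠ 0 := List.prod_ne_zero fun i => by
    obtain ⟨e, i, j⟩ := List.mem_map.1 i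
    obtain ⟨x, y, rfl⟩ := List.append_of_mem i
    simpa using m (x ++ y) (by simp [ev, j])
  obtain ⟨p, l, q⟩ := Nat.exists_infinite_primes ((s.map Prod.snd).prod.natAbs + 1)
  have := Fact.mk q
  let φ : U Γ (ZMod p) s.length := ⟨fun a => if Relation.ReflTransGen (sw Γ) (s.map Prod.fst) a then 1 else 0,
    fun a b k => if_congr ⟨fun i => i.tail k, fun i => i.tail (let ⟨x, y, u, v, k, i, j⟩ := k; ⟨x, y, v, u, k.symm, j, i⟩)⟩ rfl rfl,
    fun x v y => if_neg fun k => by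
      obtain ⟨s', e, f⟩ := sw_ev Γ k rfl
      have l := sw_len Γ k
      simp only [List.map_eq_append_iff, List.map_eq_cons_iff] at e
      obtain ⟨s1, _, rfl, rfl, ⟨a, b⟩, _, rfl, rfl, ⟨a', c⟩, s2, rfl, (e : a' = a), rfl⟩ := e
      subst a'
      have := m (s1 ++ (a, b + c) :: s2) (by rw [← f]; simp [ev, zpow_add, mul_assoc])
      simp at this l
      omega,
    fun a l => if_neg fun k => by simp [sw_len Γ k] at l⟩
  refine ⟨p, s.length, q, fun k => z ?_⟩
  have := rep_top Γ _ _ s φ (fun a l => if_neg fun k => by simp [sw_len Γ k] at l) [] (by simp)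
  have e : φ.1 [] = 0 := if_neg fun k => h (by
    obtain rfl : s = [] := by simpa using (sw_len Γ k).symm
    rfl)
  have e' : φ.1 (s.map Prod.fst) = 1 := if_pos .refl
  rw [k, List.nil_append, e', mul_one, Units.val_one, Module.End.one_apply, e] at this
  refine Int.eq_zero_of_dvd_of_natAbs_lt_natAbs ((ZMod.intCast_zmod_eq_zero_iff_dvd _ p).1 ?_) (by simpa using l)
  rw [this, Int.cast_list_prod, List.map_map]
  rfl

theorem raag {g h t : RA Γ} (c : ∀ k, 0 < k → Commute g ((t ^ k)⁻¹ * h * t ^ k)) : Commute g h := by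
  by_contra n
  obtain ⟨p, m, q, e⟩ := rep_ne Γ (mt commutatorElement_eq_one_iff_commute.1 n)
  have := Fact.mk q
  obtain ⟨k, i, j⟩ := rep_pow Γ m p t
  have := (c k i).map (rep Γ (ZMod p) m)
  simp only [map_mul, map_inv, map_pow, j, inv_one, one_mul, mul_one] at this
  exact e (by rw [map_commutatorElement, commutatorElement_eq_one_iff_commute.2 this])

end Pool.Agent.H.MP_7ddd63_al
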