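import Pool.Agent.H.MP_8a4945_al.E

namespace Pool.Agent.H.MP_8a4945_al

variable {S : Type} {R : Set (Rl S)} {G T : Type} [Group G] [MulAction G T] {X : Sys R G T} {o : T} {N : T → List (Tm S)}

namespace Sys

def Edge (X : Sys R G T) : Prop := ∀ t t' a r d b, X.St t t' a r d b → a = [] ∨ b = []

theorem Chart.ends (hN : X.Chart o N) (E : X.Edge) (t : T) : ∀ c ∈ cells (N t), ∃ y, In c y ∧ (y ∈ (N t).head? ∨ y ∈ (N t).getLast?) := by
  induction hN.fw t with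
  | base => simp [hN.cells_base]
  | @up t t' a c b A B _ u ih =>
    have l := hN.len t
    rw [u.e1, (X.wd u.st).2] at l
    have l1 := u.l1
    have l2 := u.l2
    have k : ∀ c' ∈ insert c (cells c.L), ∀ y ∈ c.os, In c' y := fun c' i y j => by
      obtain ⟨j, -, rfl⟩ := mem_os.1 j
      exact in_iff.2 i
    obtain ⟨y1, M1, e1⟩ := List.exists_cons_of_ne_nil u.n3
    obtain ⟨M2, y2, e2⟩ := (List.eq_nil_or_concat' c.os).resolve_left u.n3
    have k2 : ∀ c' ∈ insert c (cells c.L), ∃ y, In c' y ∧ (y ∈ (N t').head? ∨ y ∈ (N t').getLast?) := fun c' i => by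
      rcases E _ _ _ _ _ _ u.st with rfl | rfl
      · obtain rfl : A = [] := by simpa using l1
        exact ⟨y1, k c' i _ (by simp [e1]), .inl (by simp [u.e2, e1])⟩
      · obtain rfl : B = [] := by simpa [l1, l2] using l
        exact ⟨y2, k c' i _ (by simp [e2]), .inr (by simp [u.e2, e2])⟩
    intro c' i
    rcases (hN.up_c u).2 ▸ i with rfl | i
    · exact k2 _ (.inl rfl)
    obtain ⟨y, j, m⟩ := ih c' i
    by_cases n : y ∈ c.L
    · exact k2 _ (.inr ⟨y, n, j⟩)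
    refine ⟨y, j, m.imp (fun m => ?_) fun m => ?_⟩
    · rw [u.e1] at m
      rw [u.e2]
      cases A with
      | nil => exact (n (List.mem_of_mem_head? (by simpa [List.head?_append_of_ne_nil _ u.n1] using m))).elim
      | cons => simpa using m
    · rw [u.e1] at m
      rw [u.e2]
      rcases List.eq_nil_or_concat' B with rfl | ⟨B, z, rfl⟩
      · exact (n (List.mem_of_mem_getLast? (by simpa [List.getLast?_append_of_ne_nil _ u.n1] using m))).elim
      · simpa [← List.append_assoc] using m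

theorem Edge.fix (E : X.Edge) {g : G} {t : T} (h : X.q false (g • t) 0 = X.q false t 0)
    (k : X.q false (g • t) (X.ln t - 1) = X.q false t (X.ln t - 1)) : g = 1 := by
  obtain ⟨N, hN⟩ := X.chart t
  have e1 : (N (g • t)).head? = (N t).head? := by simpa [List.head?_eq_getElem?] using hN.nm0 h
  have e2 : (N (g • t)).getLast? = (N t).getLast? := by simpa [List.getLast?_eq_getElem?, hN.len, X.wact] using hN.nm0 k
  refine X.free g t (hN.inj (Set.Subset.antisymm (fun c i => ?_) (by simp [hN.cells_base])))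
  obtain ⟨y, j, m⟩ := hN.ends E _ c i
  exact ⟨y, m.elim (fun m => List.mem_of_mem_head? (e1 ▸ m)) fun m => List.mem_of_mem_getLast? (e2 ▸ m), j⟩

theorem Edge.rr (E : X.Edge) (o : T) {g h : G} {μ ν} (a : g ∈ X.RR μ) (b : X.Hyp h ν) (c : X.Hyp g μ) (d : g • ν = ν) (e : h • μ = μ)
    (i : μ ≠ X.q true o 0) (j : ν ≠ X.q true o 0) : g ∈ X.RR ν := by
  obtain ⟨t, ⟨m, l1, rfl⟩, n, l2, rfl⟩ := bridge b c.1 e
  obtain ⟨l, p, ρ, q, rfl⟩ := split b.1 d
  have m0 : 0 < m := Nat.pos_of_ne_zero (by rintro rfl; exact j (q_zero ..))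
  have n0 : 0 < n := Nat.pos_of_ne_zero (by rintro rfl; exact i (q_zero ..))
  obtain rfl : l = 1 := E.fix (t := t) (by
    rw [← a.2 t n rfl 0 n0, mul_smul, ← smul_q l, ← smul_q l, q.2 t m rfl 0 m0]) (p.2 t m rfl _ (by omega) (by omega))
  simpa using q

def pr {B : Type} [CommGroup B] (u v : B) : Multiplicative (ℤ × ℤ) →* B where
  toFun a := u ^ a.toAdd.1 * v ^ a.toAdd.2
  map_one' := by simp
  map_mul' a b := by simp [zpow_add, mul_mul_mul_comm]

theorem Edge.no_wr (E : X.Edge) (o : T) (ψ : Multiplicative (ℤ →₀ ℤ) →* G) : ¬ Function.Injective ψ := fun hψ => by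
  have st : ∀ a ≠ 1, ∃ μ, X.Hyp (ψ a) μ ∧ ψ a ∈ X.RR μ := fun a h => start o (by simpa [hψ.eq_iff' ψ.map_one] using h)
  have cm : ∀ a b, Commute (ψ a) (ψ b) := fun a b => (Commute.all a b).map ψ
  have un : ∀ a b μ ν, X.Hyp (ψ a) μ → ψ a ∈ X.RR μ → X.Hyp (ψ b) ν → ψ b ∈ X.RR ν → μ ≠ X.q true o 0 → ν ≠ X.q true o 0 → μ = ν :=
    fun a b μ ν h k h' k' i j => uniq h h' (E.rr o k h' h (fix_start h' k' (cm ..)) (fix_start h k (cm ..)) i j)
      (E.rr o k' h h' (fix_start h k (cm ..)) (fix_start h' k' (cm ..)) j i)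
  have ex : ∀ i j : ℤ, i ≠ j → ∃ a : ℤ →₀ ℤ, (a i ≠ 0 ∨ a j ≠ 0) ∧ (∀ k, k ≠ i → k ≠ j → a k = 0) ∧
      ∃ μ, X.Hyp (ψ (.ofAdd a)) μ ∧ ψ (.ofAdd a) ∈ X.RR μ ∧ μ ≠ X.q true o 0 := fun i j l => by
    by_contra! n
    refine no_free (ψ.comp (pr (.ofAdd (.single i 1)) (.ofAdd (.single j 1)))) (μ := X.q true o 0) fun a h => ?_
    have z : (pr (Multiplicative.ofAdd (Finsupp.single i (1 : ℤ))) (.ofAdd (.single j 1)) a).toAdd i ≠ 0 ∨
        (pr (Multiplicative.ofAdd (Finsupp.single i (1 : ℤ))) (.ofAdd (.single j 1)) a).toAdd j ≠ 0 := by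
      by_contra! z
      simp [pr, l, l.symm] at z
      exact h (Prod.ext z.1 z.2)
    obtain ⟨μ, p, q⟩ := st (pr (Multiplicative.ofAdd (Finsupp.single i (1 : ℤ))) (.ofAdd (.single j 1)) a) fun e => by simp [e] at z
    exact n _ z (fun k p q => by simp [pr, p, q]) μ p q ▸ p
  obtain ⟨a, a1, a2, μ, a3, a4, a5⟩ := ex 0 1 (by decide)
  obtain ⟨b, b1, b2, ν, b3, b4, b5⟩ := ex 2 3 (by decide)
  obtain rfl := un _ _ _ _ a3 a4 b3 b4 a5 b5
  refine no_free (ψ.comp (pr (.ofAdd a) (.ofAdd b))) (μ := μ) fun c h => ?_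
  obtain ⟨ν, p, q⟩ := st (pr (.ofAdd a) (.ofAdd b) c) fun e => h (by
    have e := fun k => DFunLike.congr_fun (congrArg Multiplicative.toAdd e) k
    have e0 := e 0
    have e1 := e 1
    have e2 := e 2
    have e3 := e 3
    simp [pr, a2, b2] at e0 e1 e2 e3
    exact Prod.ext (by tauto) (by tauto))
  have r : ψ (pr (.ofAdd a) (.ofAdd b) c) ∈ X.RR μ := by
    simpa [pr, -ofAdd_zsmul] using mul_mem (zpow_mem a4 _) (zpow_mem b4 _)
  refine un _ _ _ _ p q a3 a4 ?_ a5 ▸ p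
  rintro rfl
  obtain ⟨t, i, -, rfl⟩ := a3.1
  exact p.2.2 t 0 (q_zero ..) (r.2 t i rfl 0 (Nat.pos_of_ne_zero (by rintro rfl; exact a5 (q_zero ..))))

theorem lr_comm {μ} {l ρ : G} (v : (X.Z true μ).Nonempty) (a : l ∈ X.LL μ) (b : ρ ∈ X.RR μ) : Commute ρ l :=
  commutatorElement_eq_one_iff_commute.1 (disj' v (mul_mem (b.1 ▸ LL_conj ρ a) (inv_mem a))
    (by simpa [commutatorElement_def, mul_assoc] using mul_mem b (show l * ρ⁻¹ * l⁻¹ ∈ X.RR μ from a.1 ▸ RR_conj l (inv_mem b))))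

theorem mem_LL {g : G} {t i} (l : i < X.ln t) (h : ∀ k, i ≤ k → k < X.ln t → X.q false (g • t) k = X.q false t k) :
    g ∈ X.LL (X.q true t i) := by
  obtain ⟨N, hN⟩ := X.chart t
  exact ⟨to1 (h i le_rfl l), fun u j f => (hN.dr (ln_act _ u)).2 (hN.allL f.symm ((hN.dr (ln_act _ t)).1 h))⟩

theorem mem_RR {g : G} {t i} (l : i + 1 < X.ln t) (h : ∀ k < i + 1, X.q false (g • t) k = X.q false t k) :
    g ∈ X.RR (X.q true t (i + 1)) := by
  obtain ⟨N, hN⟩ := X.chart t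
  exact ⟨nxt (h i (by simp)), fun u j f => (hN.tk (ln_act _ u) (hN.val f.symm l).le).2 (hN.allR f.symm ((hN.tk (ln_act _ t) l.le).1 h))⟩

theorem Chart.keep (hN : X.Chart o N) {t t' a r d b c} (h : X.St t t' a r d b) (k : c ∈ cells (N t)) (n : (c.r, c.d) ≠ (r, !d)) :
    c ∈ cells (N t') := by
  rcases hN.dich h with ⟨L, A, B, u⟩ | ⟨L, A, B, u⟩
  · exact (hN.up_c u).2 ▸ .inr k
  · exact ((hN.up_c u).2 ▸ k).resolve_left fun e => n (by rw [e])

theorem Chart.first (hN : X.Chart o N) {t a r d b} (h : X.St o t a r d b) :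
    ⟨r, d, ((N o).drop a.length).take (src r d).length⟩ ∈ cells (N t) := by
  rcases hN.dich h with ⟨L, A, B, u⟩ | ⟨L, A, B, u⟩
  · rw [u.e1, ← u.l1, ← u.l2, (hN.up_c u).2]
    simp
  · exact absurd ((hN.up_c u).2.symm.trans hN.cells_base) (Set.insert_nonempty ..).ne_empty

theorem qL {t t' a r d b} (h : X.St t t' a r d b) {i} (l : i < a.length) : X.q false t i = X.q false t' i :=
  Quot.sound ⟨_, _, _, _, h, .inl ⟨l, rfl⟩⟩

theorem qR {t t' a r d b} (h : X.St t t' a r d b) (k : ℕ) :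
    X.q false t (a.length + (src r d).length + k) = X.q false t' (a.length + (src r (!d)).length + k) :=
  Quot.sound ⟨_, _, _, _, h, .inr ⟨k, rfl, rfl⟩⟩

end Sys

def R0 : Set (Rl (Fin 3)) := {([0], [0, 1]), ([0], [0, 1, 1]), ([2], [1, 2]), ([2], [1, 1, 2])}

theorem edge0 (X : Sys R0 G T) (h : X.word o = [0, 1, 2]) : X.Edge := by
  have k : ∀ {a r d b}, r ∈ R0 → (a ++ src r d ++ b).Pairwise (fun x y => y ≠ 0 ∧ x ≠ 2) →
      (a = [] ∨ b = []) ∧ (a ++ src r (!d) ++ b).Pairwise (fun x y => y ≠ 0 ∧ x ≠ 2) := fun {a r d b} i j => by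
    simp only [List.pairwise_append, List.mem_append] at j ⊢
    obtain ⟨⟨j1, -, j2⟩, j3, j4⟩ := j
    have f : ∀ d, ((0 ∈ src r d ∧ 2 ∉ src r d) ∧ (0 ∈ src r (!d) ∧ 2 ∉ src r (!d)) ∨ (2 ∈ src r d ∧ 0 ∉ src r d) ∧
        (2 ∈ src r (!d) ∧ 0 ∉ src r (!d))) ∧ (src r (!d)).Pairwise fun x y => y ≠ 0 ∧ x ≠ 2 := by
      rcases i with rfl | rfl | rfl | rfl <;> decide
    obtain ⟨f1 | f1, f2⟩ := f d
    · obtain rfl : a = [] := List.eq_nil_iff_forall_not_mem.2 fun x m => (j2 x m 0 f1.1.1).1 rfl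
      exact ⟨.inl rfl, ⟨j1, f2, by simp⟩, j3, fun x m y n => ⟨(j4 0 (.inr f1.1.1) y n).1, by grind⟩⟩
    · obtain rfl : b = [] := List.eq_nil_iff_forall_not_mem.2 fun x m => (j4 2 (.inr f1.1.1) x m).2 rfl
      exact ⟨.inr rfl, ⟨j1, f2, fun x m y n => ⟨by grind, (j2 x m 2 f1.1.1).2⟩⟩, j3, by simp⟩
  intro t t' a r d b s
  exact (k (X.wd s).1 ((X.wd s).2 ▸ X.con o (fun t => (X.word t).Pairwise fun x y => y ≠ 0 ∧ x ≠ 2) (by rw [h]; decide)
    (fun t t' a r d b s i => X.wd' s ▸ (k (X.wd s).1 ((X.wd s).2 ▸ i)).2) t)).1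

theorem elts (X : Sys R0 G T) (h : X.word o = [0, 1, 2]) :
    ∃ g k τ : G, (∀ n, 0 < n → Commute k ((τ ^ n)⁻¹ * g * τ ^ n)) ∧ ¬ Commute k g := by
  obtain ⟨t1, s1⟩ := X.ex (t := o) (a := []) (r := ([0], [0, 1])) (d := false) (b := [2]) (by simp [R0]) h
  obtain ⟨t2, s2⟩ := X.ex (t := t1) (a := []) (r := ([0], [0, 1, 1])) (d := true) (b := [2]) (by simp [R0]) (X.wd' s1)
  obtain ⟨t3, s3⟩ := X.ex (t := t2) (a := []) (r := ([0], [0, 1])) (d := false) (b := [1, 2]) (by simp [R0]) (X.wd' s2)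
  obtain ⟨g, rfl⟩ := X.tr o t3 (h.trans (X.wd' s3).symm)
  obtain ⟨u1, r1⟩ := X.ex (t := o) (a := [0]) (r := ([2], [1, 2])) (d := false) (b := []) (by simp [R0]) h
  obtain ⟨u2, r2⟩ := X.ex (t := u1) (a := [0]) (r := ([2], [1, 1, 2])) (d := true) (b := []) (by simp [R0]) (X.wd' r1)
  obtain ⟨u3, r3⟩ := X.ex (t := u2) (a := [0, 1]) (r := ([2], [1, 2])) (d := false) (b := []) (by simp [R0]) (X.wd' r2)
  obtain ⟨k, rfl⟩ := X.tr o u3 (h.trans (X.wd' r3).symm)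
  obtain ⟨v, p⟩ := X.ex (t := t1) (a := [0]) (r := ([2], [1, 2])) (d := true) (b := []) (by simp [R0]) (X.wd' s1)
  obtain ⟨τ, rfl⟩ := X.tr o v (h.trans (X.wd' p).symm)
  have l : X.ln o = 3 := congrArg List.length h
  refine ⟨g, k, τ, fun n i => ?_, fun c => ?_⟩
  · have e : X.q true o 2 = τ • X.q true o 1 := (Sys.to1 (Sys.qR s1 0)).trans (Quot.sound ⟨_, _, _, _, p, .inl ⟨by simp [src], rfl⟩⟩)
    refine Sys.lr_comm (X := X) (μ := X.q true o 1) ⟨o, 1, by omega, rfl⟩ ?_ (Sys.mem_RR (i := 0) (by omega) fun j m => ?_)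
    · have f : ∀ x ∈ X.LL (X.q true o 2), τ⁻¹ * x * τ ∈ X.LL (X.q true o 1) := fun x m => by
        simpa [e] using Sys.LL_conj τ⁻¹ m
      induction n, i using Nat.le_induction with
      | base =>
        refine (pow_one τ).symm ▸ f g (Sys.mem_LL (by omega) fun j m m' => ?_)
        obtain rfl : j = 2 := by omega
        exact (((Sys.qR s1 0).trans (Sys.qR s2 0)).trans (Sys.qR s3 1)).symm
      | succ n _ ih =>
        simpa [pow_succ, mul_assoc] using f _ (Sys.mem_LL (by omega) fun j m => ih.2 o 1 rfl j (by omega))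
    · obtain rfl : j = 0 := by omega
      exact (((Sys.qL r1 (by simp)).trans (Sys.qL r2 (by simp))).trans (Sys.qL r3 (by simp))).symm
  · obtain ⟨N, hN⟩ := X.chart o
    have c1 := hN.keep (X.sact g r3) (hN.keep (X.sact g r2) (hN.keep (X.sact g r1) (hN.keep s3 (hN.keep s2 (hN.first s1)
      (by simp)) (by simp)) (by simp)) (by simp)) (by simp)
    have c2 := hN.keep (X.sact k s3) (hN.keep (X.sact k s2) (hN.keep (X.sact k s1) (hN.keep r3 (hN.keep r2 (hN.first r1)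
      (by simp)) (by simp)) (by simp)) (by simp)) (by simp)
    rw [← mul_smul, c.eq, mul_smul] at c2
    simpa using (hN.inv _).i5 _ c1 _ c2 (.ini 1) (by simp [hN.base, h, src, List.range_succ]) (by simp [hN.base, h, src, List.range_succ])

end Pool.Agent.H.MP_8a4945_al
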